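import Mathlib

open Finset

namespace Pool.Agent.Results.MP_e2f147_nt.OptimalMultipliers

/-- The numbers `S_n^{(r)} = ∑_{k=0}^n C(n,k)^2 C(2k,k) (2k+1)^r`. -/
def S (r n : ℕ) : ℤ :=
  ∑ k ∈ range (n + 1), (n.choose k : ℤ) ^ 2 * ((2 * k).choose k : ℤ) * (2 * (k : ℤ) + 1) ^ r

/-- `A_r(n) = ∑_{k=0}^{n-1} S_k^{(2r-1)}`. -/
def A (r n : ℕ) : ℤ := ∑ k ∈ range n, S (2 * r - 1) k

/-- `B_r(n) = ∑_{k=0}^{n-1} k S_k^{(r)}`. -/
def B (r n : ℕ) : ℤ := ∑ k ∈ range n, (k : ℤ) * S r k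

/-- The product of all odd primes `p ≤ 2r-1` with `(p-1) ∣ (2r-2)`. -/
def mulA (r : ℕ) : ℕ :=
  ∏ p ∈ (range (2 * r)).filter (fun p => p.Prime ∧ 2 < p ∧ (p - 1) ∣ (2 * r - 2)), p

/-- Four times the product of all odd primes `p ≤ r+1` such that `(p-1) ∣ r`, or
`p > 3` and `(p-1) ∣ (r-1)`. -/
def mulB (r : ℕ) : ℕ :=
  4 * ∏ p ∈ (range (r + 2)).filter
    (fun p => p.Prime ∧ 2 < p ∧ ((p - 1) ∣ r ∨ (3 < p ∧ (p - 1) ∣ (r - 1)))), p

/-! ### The telescoping identity -/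

/-- `T n j = ∑_{k<n} C(k,j)^2`. -/
def T (n j : ℕ) : ℤ := ∑ k ∈ range n, (k.choose j : ℤ) ^ 2

/-- `Q t j = ∑_{i<j} (2i+1)^t`. -/
def Q (t j : ℕ) : ℤ := ∑ i ∈ range j, (2 * (i : ℤ) + 1) ^ t

lemma choose_rel (n j : ℕ) :
    (n.choose (j + 1) : ℤ) * (j + 1) = (n.choose j : ℤ) * ((n : ℤ) - j) := by
  have h := Nat.choose_succ_right_eq n j
  rcases le_or_gt j n with hj | hj
  · have h' : ((n.choose (j + 1) * (j + 1) : ℕ) : ℤ) = ((n.choose j * (n - j) : ℕ) : ℤ) := by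
      rw [h]
    push_cast [Nat.cast_sub hj] at h'
    linarith
  · rw [Nat.choose_eq_zero_of_lt hj, Nat.choose_eq_zero_of_lt (by omega : n < j + 1)]
    simp

lemma central_rel (j : ℕ) :
    ((j : ℤ) + 1) * ((2 * (j + 1)).choose (j + 1) : ℤ)
      = 2 * (2 * (j : ℤ) + 1) * ((2 * j).choose j : ℤ) := by
  have h := Nat.succ_mul_centralBinom_succ j
  simp only [Nat.centralBinom] at h
  exact_mod_cast h

lemma key (n j : ℕ) :
    2 * (2 * (j : ℤ) + 3) * ((2 * (j + 1)).choose (j + 1) : ℤ) * T n (j + 1)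
      - 2 * (2 * (j : ℤ) + 1) * ((2 * j).choose j : ℤ) * T n j
      = ((2 * (j + 1)).choose (j + 1) : ℤ) * (n.choose (j + 1) : ℤ) ^ 2
        * (2 * (n : ℤ) - 3 * ((j : ℤ) + 1)) := by
  induction n with
  | zero => simp [T]
  | succ n ih =>
    have hT1 : T (n + 1) (j + 1) = T n (j + 1) + (n.choose (j + 1) : ℤ) ^ 2 := by
      simp [T, sum_range_succ]
    have hT2 : T (n + 1) j = T n j + (n.choose j : ℤ) ^ 2 := by
      simp [T, sum_range_succ]
    have hc : ((n + 1).choose (j + 1) : ℤ) = (n.choose j : ℤ) + (n.choose (j + 1) : ℤ) := by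
      exact_mod_cast Nat.choose_succ_succ n j
    have h1 := choose_rel n j
    have h2 := central_rel j
    rw [hT1, hT2, hc]
    push_cast
    linear_combination ih
      + ((2 * (j + 1)).choose (j + 1) : ℤ)
        * (4 * (n.choose (j + 1) : ℤ) + 2 * (n.choose j : ℤ)) * h1
      + (n.choose j : ℤ) ^ 2 * h2

/-- `V n j = (2j+1) C(2j,j) ∑_{k<n} C(k,j)^2`. -/
def V (n j : ℕ) : ℤ := (2 * (j : ℤ) + 1) * ((2 * j).choose j : ℤ) * T n j

lemma V_diff (n j : ℕ) :
    2 * V n (j + 1) - 2 * V n j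
      = ((2 * (j + 1)).choose (j + 1) : ℤ) * (n.choose (j + 1) : ℤ) ^ 2
        * (2 * (n : ℤ) - 3 * ((j : ℤ) + 1)) := by
  rw [← key n j]
  simp only [V]
  push_cast
  ring

lemma T_self (n : ℕ) : T n n = 0 := by
  apply sum_eq_zero
  intro k hk
  rw [Nat.choose_eq_zero_of_lt (mem_range.mp hk)]
  simp

/-- sum over `k` first -/
lemma sum_S (e n : ℕ) :
    ∑ k ∈ range n, S (e + 1) k = ∑ j ∈ range n, (2 * (j : ℤ) + 1) ^ e * V n j := by
  have h1 : ∀ k ∈ range n, S (e + 1) k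
      = ∑ j ∈ range n, (k.choose j : ℤ) ^ 2 * ((2 * j).choose j : ℤ)
          * (2 * (j : ℤ) + 1) ^ (e + 1) := by
    intro k hk
    have hk' : k + 1 ≤ n := mem_range.mp hk
    unfold S
    apply sum_subset (range_mono hk')
    intro j _ hj
    have : k < j := by
      simp only [mem_range, not_lt] at hj
      omega
    rw [Nat.choose_eq_zero_of_lt this]
    simp
  rw [sum_congr rfl h1, sum_comm]
  apply sum_congr rfl
  intro j _
  simp only [V, T, mul_sum]
  apply sum_congr rfl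
  intro k _
  ring

/-- summation by parts -/
lemma sum_by_parts' (f : ℕ → ℤ) (t n : ℕ) :
    ∑ j ∈ range n, (2 * (j : ℤ) + 1) ^ t * f j
      = Q t n * f n - ∑ j ∈ range n, Q t (j + 1) * (f (j + 1) - f j) := by
  induction n with
  | zero => simp [Q]
  | succ n ih =>
    rw [sum_range_succ, sum_range_succ, ih]
    have : Q t (n + 1) = Q t n + (2 * (n : ℤ) + 1) ^ t := by
      simp [Q, sum_range_succ]
    rw [this]
    ring

lemma two_sum_S (t n : ℕ) :
    2 * ∑ k ∈ range n, S (t + 1) k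
      = ∑ j ∈ range n, Q t (j + 1) * (((2 * (j + 1)).choose (j + 1) : ℤ)
          * (n.choose (j + 1) : ℤ) ^ 2 * (3 * ((j : ℤ) + 1) - 2 * (n : ℤ))) := by
  rw [sum_S, sum_by_parts' (fun j => V n j) t n]
  have hV : V n n = 0 := by simp [V, T_self]
  simp only [hV, mul_zero, zero_sub, mul_neg]
  rw [mul_sum, ← sum_neg_distrib]
  apply sum_congr rfl
  intro j _
  have h := V_diff n j
  linear_combination (-(Q t (j + 1))) * h

/-! ### Divisibility of the sums from divisibility of `Q` -/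

lemma succ_choose (m j : ℕ) :
    ((j : ℤ) + 1) * ((m + 1).choose (j + 1) : ℤ) = ((m : ℤ) + 1) * (m.choose j : ℤ) := by
  have h := Nat.add_one_mul_choose_eq m j
  have h' : (((m + 1) * m.choose j : ℕ) : ℤ) = (((m + 1).choose (j + 1) * (j + 1) : ℕ) : ℤ) := by
    exact_mod_cast h
  push_cast at h'
  linarith

lemma central_even (j : ℕ) :
    ((2 * (j + 1)).choose (j + 1) : ℤ) = 2 * ((2 * j + 1).choose j : ℤ) := by
  have h := Nat.add_one_mul_choose_eq (2 * j + 1) j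
  have h' : (((2 * j + 1 + 1) * (2 * j + 1).choose j : ℕ) : ℤ)
      = (((2 * j + 1 + 1).choose (j + 1) * (j + 1) : ℕ) : ℤ) := by
    exact_mod_cast h
  push_cast at h'
  have hj : ((j : ℤ) + 1) ≠ 0 := by positivity
  have e : 2 * (j + 1) = 2 * j + 1 + 1 := by ring
  rw [e]
  apply mul_left_cancel₀ hj
  linarith

lemma sq_dvd_of_Q (c : ℤ) (t : ℕ) (hc : ∀ j : ℕ, (j : ℤ) ∣ c * Q t j) (n : ℕ) :
    (n : ℤ) ^ 2 ∣ c * ∑ k ∈ range n, S (t + 1) k := by
  rcases Nat.eq_zero_or_pos n with rfl | hn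
  · simp
  obtain ⟨m, rfl⟩ : ∃ m, n = m + 1 := ⟨n - 1, by omega⟩
  have h2 : (2 : ℤ) * ((m + 1 : ℕ) : ℤ) ^ 2 ∣ 2 * (c * ∑ k ∈ range (m + 1), S (t + 1) k) := by
    have e : 2 * (c * ∑ k ∈ range (m + 1), S (t + 1) k)
        = c * (2 * ∑ k ∈ range (m + 1), S (t + 1) k) := by ring
    rw [e, two_sum_S, mul_sum]
    apply dvd_sum
    intro j _
    obtain ⟨R, hR⟩ := hc (j + 1)
    push_cast at hR
    refine ⟨R * ((2 * j + 1).choose j : ℤ) * (m.choose j : ℤ)
      * (3 * (m.choose j : ℤ) - 2 * ((m + 1).choose (j + 1) : ℤ)), ?_⟩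
    have h1 := succ_choose m j
    have h3 := central_even j
    rw [h3]
    push_cast
    linear_combination
      (2 * ((2 * j + 1).choose j : ℤ) * ((m + 1).choose (j + 1) : ℤ) ^ 2
        * (3 * ((j : ℤ) + 1) - 2 * ((m : ℤ) + 1))) * hR
      + (2 * R * ((2 * j + 1).choose j : ℤ)
        * (3 * (((j : ℤ) + 1) * ((m + 1).choose (j + 1) : ℤ) + ((m : ℤ) + 1) * (m.choose j : ℤ))
          - 2 * ((m : ℤ) + 1) * ((m + 1).choose (j + 1) : ℤ))) * h1
  exact (mul_dvd_mul_iff_left (by norm_num : (2 : ℤ) ≠ 0)).mp h2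

/-! ### Reduction of `B` to the sums of `S` -/

lemma weighted_T (n j : ℕ) :
    ∑ k ∈ range n, (2 * (k : ℤ) + 1 - j) * (k.choose j : ℤ) ^ 2
      = ((j : ℤ) + 1) * (n.choose (j + 1) : ℤ) ^ 2 := by
  induction n with
  | zero => simp
  | succ n ih =>
    rw [sum_range_succ, ih]
    have hc : ((n + 1).choose (j + 1) : ℤ) = (n.choose j : ℤ) + (n.choose (j + 1) : ℤ) := by
      exact_mod_cast Nat.choose_succ_succ n j
    have h1 := choose_rel n j
    rw [hc]
    linear_combination (-2 * (n.choose j : ℤ)) * h1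

lemma S_eq_of_lt (r k n : ℕ) (hk : k < n) : S r k
      = ∑ j ∈ range n, (k.choose j : ℤ) ^ 2 * ((2 * j).choose j : ℤ)
          * (2 * (j : ℤ) + 1) ^ r := by
  have hk' : k + 1 ≤ n := hk
  unfold S
  apply sum_subset (range_mono hk')
  intro j _ hj
  have : k < j := by
    simp only [mem_range, not_lt] at hj
    omega
  rw [Nat.choose_eq_zero_of_lt this]
  simp

lemma sum_S' (r n : ℕ) :
    ∑ k ∈ range n, S r k
      = ∑ j ∈ range n, ((2 * j).choose j : ℤ) * (2 * (j : ℤ) + 1) ^ r * T n j := by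
  rw [sum_congr rfl (fun k hk => S_eq_of_lt r k n (mem_range.mp hk)), sum_comm]
  apply sum_congr rfl
  intro j _
  simp only [T, mul_sum]
  apply sum_congr rfl
  intro k _
  ring

lemma catalan_rel (j : ℕ) :
    ((2 * j).choose j : ℤ) = ((j : ℤ) + 1) * (catalan j : ℤ) := by
  have h := succ_mul_catalan_eq_centralBinom j
  rw [Nat.centralBinom_eq_two_mul_choose] at h
  exact_mod_cast h.symm

lemma four_B (r m : ℕ) :
    4 * B r (m + 1) = 2 * ((m + 1 : ℕ) : ℤ) ^ 2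
        * ∑ j ∈ range (m + 1), (2 * (j : ℤ) + 1) ^ r * (catalan j : ℤ) * (m.choose j : ℤ) ^ 2
      + ∑ k ∈ range (m + 1), S (r + 1) k - 3 * ∑ k ∈ range (m + 1), S r k := by
  have hB : B r (m + 1) = ∑ j ∈ range (m + 1), ((2 * j).choose j : ℤ) * (2 * (j : ℤ) + 1) ^ r
      * ∑ k ∈ range (m + 1), (k : ℤ) * (k.choose j : ℤ) ^ 2 := by
    unfold B
    have : ∀ k ∈ range (m + 1), (k : ℤ) * S r k = ∑ j ∈ range (m + 1),
        (k : ℤ) * ((k.choose j : ℤ) ^ 2 * ((2 * j).choose j : ℤ) * (2 * (j : ℤ) + 1) ^ r) := by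
      intro k hk
      rw [S_eq_of_lt r k (m + 1) (mem_range.mp hk), mul_sum]
    rw [sum_congr rfl this, sum_comm]
    apply sum_congr rfl
    intro j _
    rw [mul_sum]
    apply sum_congr rfl
    intro k _
    ring
  rw [hB, sum_S', sum_S', mul_sum, mul_sum, mul_sum, ← sum_add_distrib, ← sum_sub_distrib]
  apply sum_congr rfl
  intro j _
  have hw := weighted_T (m + 1) j
  have e : ∑ k ∈ range (m + 1), (2 * (k : ℤ) + 1 - j) * (k.choose j : ℤ) ^ 2
      = 2 * ∑ k ∈ range (m + 1), (k : ℤ) * (k.choose j : ℤ) ^ 2 + (1 - (j : ℤ)) * T (m + 1) j := by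
    unfold T
    rw [mul_sum, mul_sum, ← sum_add_distrib]
    apply sum_congr rfl
    intro k _
    ring
  rw [e] at hw
  have h1 := succ_choose m j
  have hcat := catalan_rel j
  push_cast
  rw [pow_succ]
  linear_combination (2 * ((2 * j).choose j : ℤ) * (2 * (j : ℤ) + 1) ^ r) * hw
    + (2 * (2 * (j : ℤ) + 1) ^ r * ((j : ℤ) + 1) * ((m + 1).choose (j + 1) : ℤ) ^ 2) * hcat
    + (2 * (2 * (j : ℤ) + 1) ^ r * (catalan j : ℤ)
      * (((j : ℤ) + 1) * ((m + 1).choose (j + 1) : ℤ) + ((m : ℤ) + 1) * (m.choose j : ℤ))) * h1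

/-! ### The power sums `Q` -/

lemma Q_add (t N M : ℕ) :
    Q t (N + M) = Q t N + ∑ i ∈ range M, (2 * (i : ℤ) + 1 + 2 * (N : ℤ)) ^ t := by
  unfold Q
  rw [sum_range_add]
  congr 1
  apply sum_congr rfl
  intro i _
  push_cast
  ring

lemma Q_block (t N c : ℕ) : Q t (N * c) ≡ c * Q t N [ZMOD N] := by
  induction c with
  | zero => simp [Q, Int.ModEq]
  | succ c ih =>
    rw [Nat.mul_succ, Q_add]
    have h : ∑ i ∈ range N, (2 * (i : ℤ) + 1 + 2 * ((N * c : ℕ) : ℤ)) ^ t ≡ Q t N [ZMOD N] := by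
      unfold Q
      apply Int.ModEq.symm
      rw [Int.modEq_iff_dvd, ← sum_sub_distrib]
      apply dvd_sum
      intro i _
      have h1 := sub_dvd_pow_sub_pow (2 * (i : ℤ) + 1 + 2 * ((N * c : ℕ) : ℤ)) (2 * (i : ℤ) + 1) t
      refine dvd_trans ?_ h1
      exact ⟨2 * c, by push_cast; ring⟩
    have := ih.add h
    refine this.trans ?_
    push_cast
    have e : (c : ℤ) * Q t N + Q t N = (c + 1) * Q t N := by ring
    rw [e]

lemma Q_block2 (t N p c : ℕ) (hpN : p ∣ N) :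
    ((N * p : ℕ) : ℤ) ∣ Q t (N * c) - (c * Q t N + N * (c * (c - 1)) * t * Q (t - 1) N) := by
  induction c with
  | zero => simp [Q]
  | succ c ih =>
    rw [Nat.mul_succ, Q_add]
    have h : ((N * p : ℕ) : ℤ) ∣ ∑ i ∈ range N, (2 * (i : ℤ) + 1 + 2 * ((N * c : ℕ) : ℤ)) ^ t
        - (Q t N + 2 * N * c * t * Q (t - 1) N) := by
      have e : Q t N + 2 * N * c * t * Q (t - 1) N
          = ∑ i ∈ range N, ((2 * (i : ℤ) + 1) ^ t
            + 2 * N * c * t * (2 * (i : ℤ) + 1) ^ (t - 1)) := by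
        unfold Q
        rw [sum_add_distrib, ← mul_sum]
      rw [e, ← sum_sub_distrib]
      apply dvd_sum
      intro i _
      obtain ⟨k, hk⟩ := Polynomial.powAddExpansion (2 * (i : ℤ) + 1) (2 * ((N * c : ℕ) : ℤ)) t
      rw [hk]
      obtain ⟨q, hq⟩ := hpN
      refine ⟨k * 4 * q * c ^ 2, ?_⟩
      have hq' : (N : ℤ) = p * q := by exact_mod_cast hq
      push_cast
      have e2 : k * (2 * ((N : ℤ) * c)) ^ 2 = k * 4 * N * N * c ^ 2 := by ring
      have e3 : k * 4 * N * N * (c : ℤ) ^ 2 = k * 4 * N * (p * q) * c ^ 2 := by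
        conv_lhs => rw [mul_assoc (k * 4 * (N : ℤ)) (N : ℤ)]
        rw [hq']
        ring
      rw [e2, e3]
      ring
    have := dvd_add ih h
    have e : Q t (N * c) - (c * Q t N + N * (c * (c - 1)) * t * Q (t - 1) N)
        + (∑ i ∈ range N, (2 * (i : ℤ) + 1 + 2 * ((N * c : ℕ) : ℤ)) ^ t
        - (Q t N + 2 * N * c * t * Q (t - 1) N))
        = Q t (N * c) + ∑ i ∈ range N, (2 * (i : ℤ) + 1 + 2 * ((N * c : ℕ) : ℤ)) ^ t
          - (((c + 1 : ℕ) : ℤ) * Q t N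
            + N * (((c + 1 : ℕ) : ℤ) * (((c + 1 : ℕ) : ℤ) - 1)) * t * Q (t - 1) N) := by
      push_cast
      ring
    rw [e] at this
    exact this

lemma Q_step (t N p : ℕ) (hpN : p ∣ N) :
    ((N * p : ℕ) : ℤ) ∣ Q t (N * p) - p * Q t N := by
  have h := Q_block2 t N p p hpN
  have h2 : ((N * p : ℕ) : ℤ) ∣ (N : ℤ) * (p * (p - 1)) * t * Q (t - 1) N :=
    ⟨(p - 1) * t * Q (t - 1) N, by push_cast; ring⟩
  have := dvd_add h h2
  have e : Q t (N * p) - (p * Q t N + N * (p * (p - 1)) * t * Q (t - 1) N)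
      + (N : ℤ) * (p * (p - 1)) * t * Q (t - 1) N = Q t (N * p) - p * Q t N := by ring
  rwa [e] at this

lemma Q_prime_pow (t p : ℕ) (u : ℤ) (h : (p : ℤ) ∣ u * Q t p) (a : ℕ) :
    ((p ^ a : ℕ) : ℤ) ∣ u * Q t (p ^ a) := by
  rcases Nat.eq_zero_or_pos a with rfl | ha
  · simp
  induction a, ha using Nat.le_induction with
  | base => simpa using h
  | succ a ha ih =>
    have hp : p ∣ p ^ a := dvd_pow_self p (by omega)
    have h1 := Q_step t (p ^ a) p hp
    rw [pow_succ]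
    have h2 : ((p ^ a * p : ℕ) : ℤ) ∣ u * (Q t (p ^ a * p) - p * Q t (p ^ a)) :=
      Dvd.dvd.mul_left h1 u
    have h3 : ((p ^ a * p : ℕ) : ℤ) ∣ p * (u * Q t (p ^ a)) := by
      push_cast at ih ⊢
      rw [mul_comm]
      exact mul_dvd_mul_left _ ih
    have := dvd_add h2 h3
    have e : u * (Q t (p ^ a * p) - p * Q t (p ^ a)) + p * (u * Q t (p ^ a))
        = u * Q t (p ^ a * p) := by ring
    rwa [e] at this

lemma Q_dvd (t : ℕ) (u : ℤ) (h : ∀ p : ℕ, p.Prime → (p : ℤ) ∣ u * Q t p) (j : ℕ) :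
    (j : ℤ) ∣ u * Q t j := by
  rw [Int.natCast_dvd, Nat.dvd_iff_prime_pow_dvd_dvd]
  intro p k hp hpk
  rw [← Int.natCast_dvd]
  obtain ⟨c, rfl⟩ := hpk
  have h1 := Q_prime_pow t p u (h p hp) k
  have h2 := Q_block t (p ^ k) c
  have h3 : ((p ^ k : ℕ) : ℤ) ∣ u * (c * Q t (p ^ k)) := by
    have e : u * (c * Q t (p ^ k)) = c * (u * Q t (p ^ k)) := by ring
    rw [e]
    exact Dvd.dvd.mul_left h1 _
  have h4 : ((p ^ k : ℕ) : ℤ) ∣ u * (Q t (p ^ k * c) - c * Q t (p ^ k)) :=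
    Dvd.dvd.mul_left (Int.ModEq.dvd h2.symm) u
  have := dvd_add h4 h3
  have e : u * (Q t (p ^ k * c) - c * Q t (p ^ k)) + u * (c * Q t (p ^ k))
      = u * Q t (p ^ k * c) := by ring
  rwa [e] at this

lemma Q_prime_cast (t p : ℕ) [hp : Fact p.Prime] (h2 : 2 < p) :
    ((Q t p : ℤ) : ZMod p) = ∑ x : ZMod p, x ^ t := by
  have hne : (2 : ZMod p) ≠ 0 := by
    intro h
    have h' : ((2 : ℕ) : ZMod p) = 0 := by exact_mod_cast h
    rw [ZMod.natCast_eq_zero_iff] at h'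
    exact absurd (Nat.le_of_dvd (by norm_num) h') (by omega)
  have h1 : ∑ x : ZMod p, (2 * x + 1) ^ t = ∑ x : ZMod p, x ^ t := by
    apply Fintype.sum_bijective (fun x : ZMod p => 2 * x + 1)
    · constructor
      · intro a b hab
        have : (2 : ZMod p) * a = 2 * b := by simpa using hab
        exact mul_left_cancel₀ hne this
      · intro y
        exact ⟨(y - 1) / 2, by field_simp; ring⟩
    · intro x
      rfl
  rw [← h1]
  unfold Q
  push_cast
  refine sum_nbij' (fun i : ℕ => (i : ZMod p)) (fun x => x.val) ?_ ?_ ?_ ?_ ?_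
  · intro i _; exact mem_univ _
  · intro x _; exact mem_range.mpr (ZMod.val_lt x)
  · intro i hi; exact ZMod.val_cast_of_lt (mem_range.mp hi)
  · intro x _; exact ZMod.natCast_zmod_val x
  · intro i _; rfl

lemma sum_pow_zmod (t p : ℕ) [hp : Fact p.Prime] :
    ∑ x : ZMod p, x ^ t = if t ≠ 0 ∧ (p - 1) ∣ t then -1 else 0 := by
  classical
  by_cases ht : t = 0
  · subst ht
    simp
  · let φ : (ZMod p)ˣ ↪ ZMod p := ⟨fun x ↦ x, Units.val_injective⟩
    have hφ : univ.map φ = univ \ {0} := by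
      ext x
      simpa only [mem_map, mem_univ, Function.Embedding.coeFn_mk, true_and, mem_sdiff,
        mem_singleton, φ] using! isUnit_iff_ne_zero
    have h1 : ∑ x : ZMod p, x ^ t = ∑ x ∈ univ \ {(0 : ZMod p)}, x ^ t := by
      rw [← sum_sdiff ({0} : Finset (ZMod p)).subset_univ, sum_singleton, zero_pow ht, add_zero]
    have h2 : ∑ x ∈ univ \ {(0 : ZMod p)}, x ^ t = ∑ x : (ZMod p)ˣ, (x ^ t : ZMod p) := by
      simp [φ, ← hφ, univ.sum_map φ]
    rw [h1, h2, FiniteField.sum_pow_units (ZMod p) t, ZMod.card]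
    simp [ht]

/-- `p ∤ Q t p` when `t ≠ 0` and `(p-1) ∣ t`. -/
lemma Q_prime_of_dvd (t p : ℕ) (hp : p.Prime) (h2 : 2 < p) (ht : t ≠ 0) (hd : (p - 1) ∣ t) :
    ((Q t p : ℤ) : ZMod p) = -1 := by
  have : Fact p.Prime := ⟨hp⟩
  rw [Q_prime_cast t p h2, sum_pow_zmod, if_pos ⟨ht, hd⟩]

lemma Q_prime_of_not_dvd (t p : ℕ) (hp : p.Prime) (h2 : 2 < p) (h : t = 0 ∨ ¬ (p - 1) ∣ t) :
    ((Q t p : ℤ) : ZMod p) = 0 := by
  have : Fact p.Prime := ⟨hp⟩
  rw [Q_prime_cast t p h2, sum_pow_zmod, if_neg]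
  tauto

/-- the general multiplier -/
def M (t : ℕ) : ℕ := ∏ p ∈ (range (t + 2)).filter (fun p => p.Prime ∧ 2 < p ∧ (p - 1) ∣ t), p

lemma M_Q_prime (t p : ℕ) (hp : p.Prime) : (p : ℤ) ∣ (M t : ℤ) * Q t p := by
  rcases hp.eq_two_or_odd' with rfl | hodd
  · apply Dvd.dvd.mul_left
    have : Q t 2 = 1 + 3 ^ t := by
      simp [Q, sum_range_succ]
    rw [this]
    have h3 : Odd ((3 : ℤ) ^ t) := Odd.pow (by decide)
    exact (Odd.one_add h3).two_dvd
  · have h2 : 2 < p := by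
      rcases hodd with ⟨k, hk⟩
      have := hp.two_le
      omega
    by_cases h : t ≠ 0 ∧ (p - 1) ∣ t
    · apply Dvd.dvd.mul_right
      have hle : p - 1 ≤ t := Nat.le_of_dvd (Nat.pos_of_ne_zero h.1) h.2
      have : p ∣ M t := dvd_prod_of_mem _ (by
        rw [mem_filter, mem_range]
        exact ⟨by omega, hp, h2, h.2⟩)
      exact_mod_cast this
    · apply Dvd.dvd.mul_left
      have : Fact p.Prime := ⟨hp⟩
      rw [← ZMod.intCast_zmod_eq_zero_iff_dvd]
      exact Q_prime_of_not_dvd t p hp h2 (by tauto)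

lemma M_Q (t j : ℕ) : (j : ℤ) ∣ (M t : ℤ) * Q t j :=
  Q_dvd t (M t) (fun p hp => M_Q_prime t p hp) j

lemma M_pos (t : ℕ) : 0 < M t := by
  apply prod_pos
  intro p hp
  exact (mem_filter.mp hp).2.1.pos

lemma M_sum_S (t n : ℕ) (c : ℤ) (hc : (M t : ℤ) ∣ c) :
    (n : ℤ) ^ 2 ∣ c * ∑ k ∈ range n, S (t + 1) k := by
  apply sq_dvd_of_Q
  intro j
  exact (M_Q t j).trans (mul_dvd_mul_right hc _)

/-! ### Sharpness -/

lemma centralBinom_prime (p : ℕ) (hp : p.Prime) (h2 : 2 < p) : ¬ (p : ℤ) ∣ ((2 * p).choose p : ℤ) := by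
  have : Fact p.Prime := ⟨hp⟩
  have h := Choose.choose_modEq_choose_mod_mul_choose_div_nat (n := 2 * p) (k := p) (p := p)
  rw [Nat.mul_mod_left, Nat.mod_self, Nat.mul_div_cancel _ hp.pos, Nat.div_self hp.pos] at h
  norm_num at h
  intro hd
  have hd' : p ∣ (2 * p).choose p := by exact_mod_cast hd
  have := (Nat.ModEq.dvd_iff h (dvd_refl p)).mp hd'
  exact absurd (Nat.le_of_dvd (by norm_num) this) (by omega)

/-- modulo `p^2`, twice the sum of the first `p` numbers is `p * Q t p * C(2p,p)`. -/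
lemma two_sum_mod (t p : ℕ) (hp : p.Prime) :
    (p : ℤ) ^ 2 ∣ 2 * ∑ k ∈ range p, S (t + 1) k - p * (Q t p * ((2 * p).choose p : ℤ)) := by
  rw [two_sum_S]
  obtain ⟨m, rfl⟩ : ∃ m, p = m + 1 := ⟨p - 1, by have := hp.two_le; omega⟩
  rw [sum_range_succ]
  have e : Q t (m + 1) * (((2 * (m + 1)).choose (m + 1) : ℤ)
          * ((m + 1).choose (m + 1) : ℤ) ^ 2 * (3 * ((m : ℤ) + 1) - 2 * ((m + 1 : ℕ) : ℤ)))
      = ((m + 1 : ℕ) : ℤ) * (Q t (m + 1) * ((2 * (m + 1)).choose (m + 1) : ℤ)) := by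
    rw [Nat.choose_self]
    push_cast
    ring
  rw [e, add_sub_cancel_right]
  apply dvd_sum
  intro j hj
  have hj' := mem_range.mp hj
  have h1 : (m + 1) ∣ (m + 1).choose (j + 1) :=
    hp.dvd_choose_self (by omega) (by omega)
  have h1' : ((m + 1 : ℕ) : ℤ) ∣ ((m + 1).choose (j + 1) : ℤ) := by exact_mod_cast h1
  have h3 := pow_dvd_pow_of_dvd h1' 2
  obtain ⟨w, hw⟩ := h3
  rw [hw]
  exact ⟨Q t (j + 1) * (((2 * (j + 1)).choose (j + 1) : ℤ) * w
    * (3 * ((j : ℤ) + 1) - 2 * ((m + 1 : ℕ) : ℤ))), by ring⟩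

lemma sharp_A (t p : ℕ) (a : ℤ) (hp : p.Prime) (h2 : 2 < p) (ht : t ≠ 0) (hd : (p - 1) ∣ t)
    (h : (p : ℤ) ^ 2 ∣ a * ∑ k ∈ range p, S (t + 1) k) : (p : ℤ) ∣ a := by
  have h1 := two_sum_mod t p hp
  have h3 : (p : ℤ) ^ 2 ∣ a * (p * (Q t p * ((2 * p).choose p : ℤ))) := by
    have e : a * (p * (Q t p * ((2 * p).choose p : ℤ)))
        = 2 * (a * ∑ k ∈ range p, S (t + 1) k)
          - a * (2 * ∑ k ∈ range p, S (t + 1) k - p * (Q t p * ((2 * p).choose p : ℤ))) := by ring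
    rw [e]
    exact dvd_sub (Dvd.dvd.mul_left h 2) (Dvd.dvd.mul_left h1 a)
  have hp0 : (p : ℤ) ≠ 0 := by exact_mod_cast hp.ne_zero
  have h4 : (p : ℤ) ∣ a * (Q t p * ((2 * p).choose p : ℤ)) := by
    have e : a * (p * (Q t p * ((2 * p).choose p : ℤ)))
        = p * (a * (Q t p * ((2 * p).choose p : ℤ))) := by ring
    rw [e, pow_two] at h3
    exact (mul_dvd_mul_iff_left hp0).mp h3
  have hpi : Prime (p : ℤ) := Nat.prime_iff_prime_int.mp hp
  have : Fact p.Prime := ⟨hp⟩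
  rcases hpi.dvd_or_dvd h4 with h5 | h5
  · exact h5
  · exfalso
    rcases hpi.dvd_or_dvd h5 with h6 | h6
    · rw [← ZMod.intCast_zmod_eq_zero_iff_dvd, Q_prime_of_dvd t p hp h2 ht hd] at h6
      exact absurd h6 (neg_ne_zero.mpr one_ne_zero)
    · exact centralBinom_prime p hp h2 h6

lemma B_mod (r p : ℕ) (hr : 1 ≤ r) (hp : p.Prime) :
    (p : ℤ) ^ 2 ∣ 8 * B r p
      - p * ((Q r p - 3 * Q (r - 1) p) * ((2 * p).choose p : ℤ)) := by
  obtain ⟨m, hm⟩ : ∃ m, p = m + 1 := ⟨p - 1, by have := hp.two_le; omega⟩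
  have h1 := two_sum_mod r p hp
  have h2 := two_sum_mod (r - 1) p hp
  have hr' : r - 1 + 1 = r := by omega
  rw [hr'] at h2
  have h3 := four_B r m
  rw [← hm] at h3
  have e : 8 * B r p - p * ((Q r p - 3 * Q (r - 1) p) * ((2 * p).choose p : ℤ))
      = (p : ℤ) ^ 2 * (4 * ∑ j ∈ range p, (2 * (j : ℤ) + 1) ^ r * (catalan j : ℤ)
          * (m.choose j : ℤ) ^ 2)
        + (2 * ∑ k ∈ range p, S (r + 1) k - p * (Q r p * ((2 * p).choose p : ℤ)))
        - 3 * (2 * ∑ k ∈ range p, S r k - p * (Q (r - 1) p * ((2 * p).choose p : ℤ))) := by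
    linear_combination 2 * h3
  rw [e]
  exact dvd_sub (dvd_add (dvd_mul_right _ _) h1) (Dvd.dvd.mul_left h2 3)

lemma sharp_B (r p : ℕ) (b : ℤ) (hr : 1 ≤ r) (hp : p.Prime)
    (h2 : 2 < p) (hQ : ¬ (p : ℤ) ∣ Q r p - 3 * Q (r - 1) p)
    (h : (p : ℤ) ^ 2 ∣ b * B r p) : (p : ℤ) ∣ b := by
  have h1 := B_mod r p hr hp
  have h3 : (p : ℤ) ^ 2 ∣ b * (p * ((Q r p - 3 * Q (r - 1) p) * ((2 * p).choose p : ℤ))) := by
    have e : b * (p * ((Q r p - 3 * Q (r - 1) p) * ((2 * p).choose p : ℤ)))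
        = 8 * (b * B r p)
          - b * (8 * B r p - p * ((Q r p - 3 * Q (r - 1) p) * ((2 * p).choose p : ℤ))) := by ring
    rw [e]
    exact dvd_sub (Dvd.dvd.mul_left h 8) (Dvd.dvd.mul_left h1 b)
  have hp0 : (p : ℤ) ≠ 0 := by exact_mod_cast hp.ne_zero
  have h4 : (p : ℤ) ∣ b * ((Q r p - 3 * Q (r - 1) p) * ((2 * p).choose p : ℤ)) := by
    have e : b * (p * ((Q r p - 3 * Q (r - 1) p) * ((2 * p).choose p : ℤ)))
        = p * (b * ((Q r p - 3 * Q (r - 1) p) * ((2 * p).choose p : ℤ))) := by ring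
    rw [e, pow_two] at h3
    exact (mul_dvd_mul_iff_left hp0).mp h3
  have hpi : Prime (p : ℤ) := Nat.prime_iff_prime_int.mp hp
  rcases hpi.dvd_or_dvd h4 with h5 | h5
  · exact h5
  · exfalso
    rcases hpi.dvd_or_dvd h5 with h6 | h6
    · exact hQ h6
    · exact centralBinom_prime p hp h2 h6

/-! ### The multipliers -/

lemma mulA_eq (r : ℕ) (hr : 1 ≤ r) : mulA r = M (2 * r - 2) := by
  unfold mulA M
  have : 2 * r - 2 + 2 = 2 * r := by omega
  rw [this]

/-- `4`-free part of `mulB`. -/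
def cB (r : ℕ) : ℕ :=
  ∏ p ∈ (range (r + 2)).filter
    (fun p => p.Prime ∧ 2 < p ∧ ((p - 1) ∣ r ∨ (3 < p ∧ (p - 1) ∣ (r - 1)))), p

lemma mulB_eq (r : ℕ) : mulB r = 4 * cB r := rfl

lemma M_dvd_cB (r : ℕ) : M r ∣ cB r := by
  apply prod_dvd_prod_of_subset
  intro p hp
  rw [mem_filter] at hp ⊢
  exact ⟨hp.1, hp.2.1, hp.2.2.1, Or.inl hp.2.2.2⟩

lemma M_pred_dvd_cB (r : ℕ) (hr : 1 ≤ r) : M (r - 1) ∣ 3 * cB r := by
  have hr' : r - 1 + 2 = r + 1 := by omega
  unfold M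
  rw [hr']
  set s := (range (r + 1)).filter (fun p => p.Prime ∧ 2 < p ∧ (p - 1) ∣ (r - 1)) with hs
  have h1 : ∏ p ∈ s, p ∣ 3 * ∏ p ∈ s.erase 3, p := by
    by_cases h3 : 3 ∈ s
    · rw [mul_prod_erase s (fun p => p) h3]
    · rw [erase_eq_of_notMem h3]
      exact Dvd.intro_left 3 rfl
  refine h1.trans (mul_dvd_mul_left 3 ?_)
  apply prod_dvd_prod_of_subset
  intro p hp
  rw [mem_erase, hs, mem_filter, mem_range] at hp
  rw [mem_filter, mem_range]
  obtain ⟨hp3, hlt, hpp, h2, hd⟩ := hp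
  exact ⟨by omega, hpp, h2, Or.inr ⟨by omega, hd⟩⟩

lemma prod_dvd_int (s : Finset ℕ) (c : ℤ) (hs : ∀ p ∈ s, p.Prime) (h : ∀ p ∈ s, (p : ℤ) ∣ c) :
    ((∏ p ∈ s, p : ℕ) : ℤ) ∣ c := by
  rw [Int.natCast_dvd]
  apply prod_primes_dvd
  · intro p hp
    exact (hs p hp).prime
  · intro p hp
    exact Int.natCast_dvd.mp (h p hp)

/-- **Exact multipliers.**  For every `r ≥ 1` the integers `a` with `n^2 ∣ a A_r(n)` for all
`n ≥ 1` are exactly the multiples of the nonzero integer `mulA r`, and the integers `b` with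
`n^2 ∣ b B_r(n)` for all `n ≥ 1` are exactly the multiples of the nonzero integer `mulB r`. -/
theorem result (r : ℕ) (hr : 1 ≤ r) :
    mulA r ≠ 0 ∧ mulB r ≠ 0 ∧
    (∀ a : ℤ, (∀ n : ℕ, 1 ≤ n → (n : ℤ) ^ 2 ∣ a * A r n) ↔ (mulA r : ℤ) ∣ a) ∧
    (∀ b : ℤ, (∀ n : ℕ, 1 ≤ n → (n : ℤ) ^ 2 ∣ b * B r n) ↔ (mulB r : ℤ) ∣ b) := by
  have hA : ∀ n, A r n = ∑ k ∈ range n, S (2 * r - 2 + 1) k := by
    intro n
    unfold A
    have : 2 * r - 2 + 1 = 2 * r - 1 := by omega
    rw [this]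
  refine ⟨?_, ?_, ?_, ?_⟩
  · rw [mulA_eq r hr]
    exact (M_pos _).ne'
  · rw [mulB_eq]
    apply mul_ne_zero (by norm_num)
    apply prod_ne_zero_iff.mpr
    intro p hp
    exact (mem_filter.mp hp).2.1.ne_zero
  · intro a
    constructor
    · intro h
      apply prod_dvd_int
      · intro p hp
        exact (mem_filter.mp hp).2.1
      · intro p hp
        rw [mem_filter, mem_range] at hp
        obtain ⟨hlt, hpp, h2, hd⟩ := hp
        have ht : 2 * r - 2 ≠ 0 := by omega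
        have h1 := h p hpp.one_lt.le
        rw [hA] at h1
        exact sharp_A (2 * r - 2) p a hpp h2 ht hd h1
    · intro ha n _
      rw [hA]
      apply M_sum_S
      rw [← mulA_eq r hr]
      exact ha
  · intro b
    constructor
    · intro h
      rw [mulB_eq]
      push_cast
      apply IsCoprime.mul_dvd
      · -- coprimality
        have : IsCoprime ((4 : ℕ) : ℤ) ((cB r : ℕ) : ℤ) := by
          rw [Nat.isCoprime_iff_coprime]
          unfold cB
          apply Nat.Coprime.prod_right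
          intro p hp
          rw [mem_filter] at hp
          have h2p : ¬ 2 ∣ p := by
            intro h2
            have := (Nat.prime_dvd_prime_iff_eq Nat.prime_two hp.2.1).mp h2
            omega
          have : Nat.Coprime 2 p := (Nat.Prime.coprime_iff_not_dvd Nat.prime_two).mpr h2p
          have h4 : Nat.Coprime (2 ^ 2) p := Nat.Coprime.pow_left 2 this
          simpa using h4
        simpa using this
      · have h1 := h 2 (by norm_num)
        have hB2 : B r 2 = 1 + 2 * 3 ^ r := by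
          simp [B, S, sum_range_succ]
        rw [hB2] at h1
        have hc : IsCoprime ((4 : ℤ)) (1 + 2 * 3 ^ r) := by
          have : IsCoprime ((2 : ℤ)) (1 + 2 * 3 ^ r) := ⟨-3 ^ r, 1, by ring⟩
          have h4 : (4 : ℤ) = 2 ^ 2 := by norm_num
          rw [h4]
          exact this.pow_left
        have h4 : (4 : ℤ) ∣ b * (1 + 2 * 3 ^ r) := by
          norm_num at h1
          exact h1
        exact hc.dvd_of_dvd_mul_right h4
      · apply prod_dvd_int
        · intro p hp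
          exact (mem_filter.mp hp).2.1
        · intro p hp
          rw [mem_filter, mem_range] at hp
          obtain ⟨hlt, hpp, h2, hd⟩ := hp
          have : Fact p.Prime := ⟨hpp⟩
          have heven : Even (p - 1) := by
            rcases hpp.eq_two_or_odd' with h | h
            · omega
            · exact Nat.Odd.sub_odd h odd_one
          have hpar : ∀ s, Odd s → ¬ (p - 1) ∣ s := by
            intro s hs hdvd
            have : Even s := Even.trans_dvd heven hdvd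
            exact (Nat.not_even_iff_odd.mpr hs) this
          refine sharp_B r p b hr hpp h2 ?_ (h p hpp.one_lt.le)
          rw [← ZMod.intCast_zmod_eq_zero_iff_dvd]
          push_cast
          rcases hd with hd | ⟨h3, hd⟩
          · -- `r` even
            have hre : Even r := Even.trans_dvd heven hd
            have hro : Odd (r - 1) := Nat.Even.sub_odd hr hre odd_one
            rw [Q_prime_of_dvd r p hpp h2 (by omega) hd,
              Q_prime_of_not_dvd (r - 1) p hpp h2 (Or.inr (hpar _ hro))]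
            simp
          · -- `r` odd
            have hre : Even (r - 1) := Even.trans_dvd heven hd
            have hro : Odd r := by
              have : Odd (r - 1 + 1) := hre.add_one
              have e : r - 1 + 1 = r := by omega
              rwa [e] at this
            have hr1 : r - 1 ≠ 0 := by omega
            rw [Q_prime_of_not_dvd r p hpp h2 (Or.inr (hpar _ hro)),
              Q_prime_of_dvd (r - 1) p hpp h2 hr1 hd]
            intro h0
            have h3' : ((3 : ℕ) : ZMod p) = 0 := by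
              push_cast
              linear_combination h0
            rw [ZMod.natCast_eq_zero_iff] at h3'
            have := Nat.le_of_dvd (by norm_num) h3'
            omega
    · intro hb n hn
      obtain ⟨m, rfl⟩ : ∃ m, n = m + 1 := ⟨n - 1, by omega⟩
      obtain ⟨w, rfl⟩ := hb
      rw [mulB_eq]
      have e : ((4 * cB r : ℕ) : ℤ) * w * B r (m + 1)
          = ((cB r : ℕ) : ℤ) * w * (4 * B r (m + 1)) := by
        push_cast
        ring
      rw [e, four_B]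
      have h1 : ((m + 1 : ℕ) : ℤ) ^ 2 ∣ (((cB r : ℕ) : ℤ) * w)
          * ∑ k ∈ range (m + 1), S (r + 1) k := by
        apply M_sum_S
        apply Dvd.dvd.mul_right
        exact_mod_cast M_dvd_cB r
      have h2 : ((m + 1 : ℕ) : ℤ) ^ 2 ∣ (3 * ((cB r : ℕ) : ℤ) * w)
          * ∑ k ∈ range (m + 1), S r k := by
        have hr' : r - 1 + 1 = r := by omega
        have := M_sum_S (r - 1) (m + 1) (3 * ((cB r : ℕ) : ℤ) * w) (by
          apply Dvd.dvd.mul_right
          exact_mod_cast M_pred_dvd_cB r hr)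
        rwa [hr'] at this
      have e2 : ((cB r : ℕ) : ℤ) * w * (2 * ((m + 1 : ℕ) : ℤ) ^ 2
          * ∑ j ∈ range (m + 1), (2 * (j : ℤ) + 1) ^ r * (catalan j : ℤ) * (m.choose j : ℤ) ^ 2
          + ∑ k ∈ range (m + 1), S (r + 1) k - 3 * ∑ k ∈ range (m + 1), S r k)
          = ((m + 1 : ℕ) : ℤ) ^ 2 * (2 * ((cB r : ℕ) : ℤ) * w
            * ∑ j ∈ range (m + 1), (2 * (j : ℤ) + 1) ^ r * (catalan j : ℤ) * (m.choose j : ℤ) ^ 2)
            + (((cB r : ℕ) : ℤ) * w) * ∑ k ∈ range (m + 1), S (r + 1) k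
            - (3 * ((cB r : ℕ) : ℤ) * w) * ∑ k ∈ range (m + 1), S r k := by
        ring
      rw [e2]
      exact dvd_sub (dvd_add (dvd_mul_right _ _) h1) h2

end Pool.Agent.Results.MP_e2f147_nt.OptimalMultipliers
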